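import Pool.Agent.L5helper52.BA.Hi

set_option autoImplicit false
open Cardinal Set

namespace Pool.L5helper52.BA

open Pool.L5helper54.BA

universe u

lemma countable_Iio {γ : Ordinal.{0}} (h : γ < (aleph 1).ord) : (Iio γ).Countable := by
  rw [← Cardinal.le_aleph0_iff_set_countable, Cardinal.mk_Iio_ordinal]
  have h1 : γ.card < ℵ_ 1 := Cardinal.lt_ord.1 h
  rw [← succ_aleph0, Order.lt_succ_iff] at h1
  exact lift_le_aleph0.2 h1

/-- disjoint open unions of members of `𝒜` are of bounded class -/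
def DD {X : Type u} [TopologicalSpace X] (S : Ordinal.{0} → Set (Set X)) (𝒜 : Set (Set X)) :
    Prop :=
  ∃ β < (aleph 1).ord, ∀ (Y : Type u) (V : Y → Set X) (A : Y → Set X), (∀ y, IsOpen (V y)) →
      Pairwise (Function.onFun Disjoint V) →
      (∀ y, A y ∈ 𝒜) → (⋃ y, (A y ∩ V y)) ∈ CC S β

variable {X : Type u} [TopologicalSpace X] {S : Ordinal.{0} → Set (Set X)}

lemma open_CC (hS : IsHier S) {O : Set X} (hO : IsOpen O) : O ∈ CC S 1 :=
  ⟨1, le_rfl, le_rfl, one_lt, Or.inl (by rw [hS.one]; exact hO)⟩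

lemma DD.compl (hS : IsHier S) (hH : Hier (CC S)) {𝒜 : Set (Set X)} (h : DD S 𝒜) :
    DD S {A | Aᶜ ∈ 𝒜} := by
  obtain ⟨β, hβ, hD⟩ := h
  have hmax : max β 1 < (aleph 1).ord := max_lt hβ one_lt
  refine ⟨max β 1 + 2, add_two_lt hmax, fun Y V A hV hd hA => ?_⟩
  have h1 := hD Y V (fun y => (A y)ᶜ) hV hd hA
  have h2 : (⋃ y, V y) ∈ CC S 1 := open_CC hS (isOpen_iUnion hV)
  have h3 : (⋃ y, (A y ∩ V y)) = ((⋃ y, V y)ᶜ ∪ ⋃ y, ((A y)ᶜ ∩ V y))ᶜ := by
    ext x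
    constructor
    · intro hx
      obtain ⟨y, hx, hy⟩ := mem_iUnion.1 hx
      rintro (h | h)
      · exact h (mem_iUnion.2 ⟨y, hy⟩)
      · obtain ⟨z, hz1, hz2⟩ := mem_iUnion.1 h
        by_cases hyz : y = z
        · subst hyz
          exact hz1 hx
        · exact Set.disjoint_left.1 (hd hyz) hy hz2
    · intro h
      by_cases h1 : x ∈ ⋃ y, V y
      · obtain ⟨y, hy⟩ := mem_iUnion.1 h1
        refine mem_iUnion.2 ⟨y, ?_, hy⟩
        by_contra hcon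
        exact h (Or.inr (mem_iUnion.2 ⟨y, hcon, hy⟩))
      · exact (h (Or.inl h1)).elim
  rw [h3]
  refine hH.compl _ _ (hH.union2 hmax ?_ ?_)
  · exact hH.compl _ _ (hH.mono _ _ (le_max_right _ _) h2)
  · exact hH.mono _ _ (le_max_left _ _) h1

lemma DD.cunion (hH : Hier (CC S)) {𝒜 : Set (Set X)} (h : DD S 𝒜) :
    DD S {A | ∃ f : ℕ → Set X, A = (⋃ n, f n) ∧ ∀ n, f n ∈ 𝒜} := by
  obtain ⟨β, hβ, hD⟩ := h
  refine ⟨β + 2, add_two_lt hβ, fun Y V A hV hd hA => ?_⟩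
  choose f hf1 hf2 using hA
  have h3 : (⋃ y, (A y ∩ V y)) = ⋃ n, ⋃ y, (f y n ∩ V y) := by
    ext x
    simp only [mem_iUnion, mem_inter_iff]
    constructor
    · rintro ⟨y, hx, hy⟩
      rw [hf1 y] at hx
      obtain ⟨n, hn⟩ := mem_iUnion.1 hx
      exact ⟨n, y, hn, hy⟩
    · rintro ⟨n, y, hx, hy⟩
      refine ⟨y, ?_, hy⟩
      rw [hf1 y]
      exact mem_iUnion.2 ⟨n, hx⟩
  rw [h3]
  exact hH.union _ _ hβ fun n => hD Y V (fun y => f y n) hV hd (fun y => hf2 y n)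

lemma DD.iUnion (hH : Hier (CC S)) {ι : Type*} [Countable ι] [Nonempty ι] (𝒜 : ι → Set (Set X))
    (h : ∀ i, DD S (𝒜 i)) : DD S {A | ∃ i, A ∈ 𝒜 i} := by
  choose β hβ hD using h
  obtain ⟨δ, hδ, hle⟩ := sup_lt β hβ
  refine ⟨δ + 2, add_two_lt hδ, fun Y V A hV hd hA => ?_⟩
  choose i hi using hA
  have h3 : (⋃ y, (A y ∩ V y)) = ⋃ j, ⋃ y : {y // i y = j}, (A y ∩ V y) := by
    ext x
    simp only [mem_iUnion, mem_inter_iff]
    constructor
    · rintro ⟨y, hx, hy⟩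
      exact ⟨i y, ⟨y, rfl⟩, hx, hy⟩
    · rintro ⟨j, y, hx, hy⟩
      exact ⟨y, hx, hy⟩
  rw [h3]
  refine hH.union_mem _ hδ fun j => hH.mono _ _ (hle j) (hD j {y // i y = j}
    (fun y => V y) (fun y => A y) (fun y => hV y) ?_ ?_)
  · intro y z hyz
    exact hd (fun h => hyz (Subtype.ext h))
  · rintro ⟨y, rfl⟩
    exact hi y

lemma DD.mono {𝒜 ℬ : Set (Set X)} (h : DD S 𝒜) (hle : ℬ ⊆ 𝒜) : DD S ℬ := by
  obtain ⟨β, hβ, hD⟩ := h
  exact ⟨β, hβ, fun Y V A hV hd hA => hD Y V A hV hd (fun y => hle (hA y))⟩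

lemma DD_S (hS : IsHier S) (hH : Hier (CC S)) (γ : Ordinal.{0}) :
    1 ≤ γ → γ < (aleph 1).ord → DD S (S γ) := by
  induction γ using WellFoundedLT.induction with
  | _ γ ih =>
    intro h1 hγ
    rcases eq_or_lt_of_le h1 with rfl | h1
    · refine ⟨1, one_lt, fun Y V A hV hd hA => open_CC hS (isOpen_iUnion fun y => ?_)⟩
      have h2 : IsOpen (A y) := by
        have := hA y
        rw [hS.one] at this
        exact this
      exact h2.inter (hV y)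
    · have hc : Countable {β : Ordinal.{0} // 1 ≤ β ∧ β < γ} := by
        have h2 := (countable_Iio hγ).mono (s₁ := {β | 1 ≤ β ∧ β < γ}) (fun β h => h.2)
        exact h2.to_subtype
      have : Nonempty {β : Ordinal.{0} // 1 ≤ β ∧ β < γ} := ⟨⟨1, le_rfl, h1⟩⟩
      have h3 := DD.cunion hH (DD.iUnion hH (fun β : {β : Ordinal.{0} // 1 ≤ β ∧ β < γ} =>
        {A : Set X | Aᶜ ∈ S β.1}) (fun β => DD.compl hS hH
          (ih β.1 β.2.2 β.2.1 (β.2.2.trans hγ))))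
      refine h3.mono ?_
      intro A hA
      rw [hS.step γ h1 hγ] at hA
      obtain ⟨f, hf1, hf2⟩ := hA
      refine ⟨f, hf1, fun n => ?_⟩
      obtain ⟨β, hβ1, hβ2, hβ3⟩ := hf2 n
      exact ⟨⟨β, hβ1, hβ2⟩, hβ3⟩

/-- (B2) unions of sets of bounded class inside disjoint open sets -/
theorem disjoint_union (hS : IsHier S) (α : Ordinal.{0}) (h' : α < (aleph 1).ord) :
    ∃ β < (aleph 1).ord, ∀ (Y : Type u) (V : Y → Set X) (A : Y → Set X), (∀ y, IsOpen (V y)) →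
      Pairwise (Function.onFun Disjoint V) →
      (∀ y, A y ∈ CC S α) → (⋃ y, (A y ∩ V y)) ∈ CC S β := by
  have hH := hier hS
  have h0 : DD S (CC S (max α 1)) := by
    have hm : max α 1 < (aleph 1).ord := max_lt h' one_lt
    have hm' : max α 1 + 2 < (aleph 1).ord := add_two_lt hm
    have hc : Countable {β : Ordinal.{0} // 1 ≤ β ∧ β ≤ max α 1} := by
      have h2 := (countable_Iio hm').mono (s₁ := {β | 1 ≤ β ∧ β ≤ max α 1})
        (fun β h => lt_of_le_of_lt h.2 (lt_add_of_pos_right _ (by norm_num)))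
      exact h2.to_subtype
    have : Nonempty {β : Ordinal.{0} // 1 ≤ β ∧ β ≤ max α 1} := ⟨⟨1, le_rfl, le_max_right _ _⟩⟩
    have h3 := DD.iUnion hH (fun β : {β : Ordinal.{0} // 1 ≤ β ∧ β ≤ max α 1} × Bool =>
      if β.2 then S β.1.1 else {A : Set X | Aᶜ ∈ S β.1.1}) (fun β => by
        have h4 := DD_S hS hH β.1.1 β.1.2.1 (lt_of_le_of_lt β.1.2.2 hm)
        rcases β with ⟨β, b⟩
        cases b
        · exact DD.compl hS hH h4
        · exact h4)
    refine h3.mono ?_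
    rintro A ⟨γ, h1, h2, h3, h4 | h4⟩
    · exact ⟨(⟨γ, h1, h2⟩, true), h4⟩
    · exact ⟨(⟨γ, h1, h2⟩, false), h4⟩
  exact h0.mono (hH.mono _ _ (le_max_left _ _))

end Pool.L5helper52.BA
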