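import Mathlib

set_option autoImplicit false
open Set

namespace Pool.L5helper52.BA

universe u

lemma exists_free_aux {S : Type u} (a : S → Set S) (ha : ∀ s, (a s).Finite) (n : ℕ) :
    ∀ P : Set S, ¬ P.Countable → (∀ s ∈ P, (a s ∩ P).ncard ≤ n) →
    ∃ A ⊆ P, ¬ A.Countable ∧ ∀ s ∈ A, ∀ t ∈ A, s ≠ t → t ∉ a s := by
  induction n with
  | zero =>
    intro P hP h
    refine ⟨P, subset_rfl, hP, fun s hs t ht _ hta => ?_⟩
    have h0 : (a s ∩ P).ncard = 0 := Nat.le_zero.1 (h s hs)
    rw [Set.ncard_eq_zero ((ha s).subset inter_subset_left)] at h0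
    have : t ∈ a s ∩ P := ⟨hta, ht⟩
    rw [h0] at this
    exact this
  | succ n ih =>
    intro P hP h
    obtain ⟨A, hA⟩ := zorn_subset {A : Set S | A ⊆ P ∧ ∀ s ∈ A, ∀ t ∈ A, s ≠ t → t ∉ a s} (by
      intro c hc hch
      refine ⟨⋃₀ c, ⟨sUnion_subset (fun D hD => (hc hD).1), ?_⟩, fun D hD => subset_sUnion_of_mem hD⟩
      rintro s ⟨D, hD, hs⟩ t ⟨E, hE, ht⟩ hst
      rcases hch.total hD hE with hle | hle
      · exact (hc hE).2 s (hle hs) t ht hst
      · exact (hc hD).2 s hs t (hle ht) hst)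
    obtain ⟨⟨hAP, hfree⟩, hmax⟩ := hA
    by_cases hAc : A.Countable
    · set B : Set S := P \ (A ∪ ⋃ t ∈ A, a t) with hB
      have hBc : ¬ B.Countable := by
        intro hBc
        apply hP
        have h1 : (A ∪ ⋃ t ∈ A, a t).Countable :=
          hAc.union (hAc.biUnion (fun t _ => (ha t).countable))
        refine (hBc.union h1).mono ?_
        intro x hx
        by_cases hx' : x ∈ (A ∪ ⋃ t ∈ A, a t)
        · exact Or.inr hx'
        · exact Or.inl ⟨hx, hx'⟩
      obtain ⟨A', hA', h2, h3⟩ := ih B hBc (by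
        intro s hs
        have hsP : s ∈ P := hs.1
        have hsA : s ∉ A := fun h => hs.2 (Or.inl h)
        have hsU : ∀ t ∈ A, s ∉ a t := fun t ht h => hs.2 (Or.inr (mem_biUnion ht h))
        obtain ⟨t, htA, hta⟩ : ∃ t ∈ A, t ∈ a s := by
          by_contra hcon
          push Not at hcon
          have h5 : insert s A ∈ {A : Set S | A ⊆ P ∧ ∀ s ∈ A, ∀ t ∈ A, s ≠ t → t ∉ a s} := by
            refine ⟨insert_subset hsP hAP, ?_⟩
            rintro x hx y hy hxy
            rcases hx with rfl | hx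
            · rcases hy with rfl | hy
              · exact (hxy rfl).elim
              · exact hcon y hy
            · rcases hy with rfl | hy
              · exact hsU x hx
              · exact hfree x hx y hy hxy
          exact hsA (hmax h5 (subset_insert s A) (mem_insert s A))
        have h6 : a s ∩ B ⊂ a s ∩ P := by
          refine ⟨inter_subset_inter_right _ sdiff_subset, fun h7 => ?_⟩
          have h8 : t ∈ a s ∩ B := h7 ⟨hta, hAP htA⟩
          exact h8.2.2 (Or.inl htA)
        have h9 := Set.ncard_lt_ncard h6 ((ha s).subset inter_subset_left)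
        have h10 := h s hsP
        omega)
      exact ⟨A', hA'.trans sdiff_subset, h2, h3⟩
    · exact ⟨A, hAP, hAc, hfree⟩

/-- (B3) free sets for finite set mappings on an uncountable set -/
theorem exists_free {S : Type u} (a : S → Set S) (ha : ∀ s, (a s).Finite) (P : Set S)
    (hP : ¬ P.Countable) :
    ∃ A ⊆ P, ¬ A.Countable ∧ ∀ s ∈ A, ∀ t ∈ A, s ≠ t → t ∉ a s := by
  obtain ⟨n, hn⟩ : ∃ n : ℕ, ¬ ({s | s ∈ P ∧ (a s).ncard ≤ n}).Countable := by
    by_contra hcon
    push Not at hcon
    apply hP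
    refine (Set.countable_iUnion hcon).mono ?_
    intro s hs
    exact mem_iUnion.2 ⟨(a s).ncard, hs, le_refl _⟩
  obtain ⟨A, hA, h1, h2⟩ := exists_free_aux a ha n _ hn (by
    intro s hs
    exact le_trans (Set.ncard_le_ncard inter_subset_left (ha s)) hs.2)
  exact ⟨A, hA.trans (fun s hs => hs.1), h1, h2⟩

end Pool.L5helper52.BA
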