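import Pool.Agent.L5helper54.BA.Hier

set_option autoImplicit false
open Cardinal Set

namespace Pool.L5helper52.BA

open Pool.L5helper54.BA

universe u

lemma zero_lt : (0 : Ordinal.{0}) < (aleph 1).ord := by
  rw [ord_aleph]
  exact Ordinal.omega_pos 1

lemma one_lt : (1 : Ordinal.{0}) < (aleph 1).ord := by
  have h2 := add_two_lt zero_lt
  rw [zero_add] at h2
  exact one_lt_two.trans h2

variable {X : Type u} [TopologicalSpace X] {S : Ordinal.{0} → Set (Set X)}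

lemma one_lt_add_two (α : Ordinal.{0}) : 1 < α + 2 :=
  one_lt_two.trans_le (le_add_left le_rfl)

lemma lt_add_two (α : Ordinal.{0}) : α < α + 2 := lt_add_of_pos_right _ (by norm_num)

lemma two_lt_add_two {α : Ordinal.{0}} (h : 1 ≤ α) : 2 < α + 2 := by
  calc (2 : Ordinal.{0}) < 1 + 2 := by norm_num
    _ ≤ α + 2 := by gcongr

lemma closed_mem (hS : IsHier S) {A : Set X} (hA : IsClosed A) : A ∈ S 2 := by
  have h2 : (2 : Ordinal.{0}) < (aleph 1).ord := by
    have := add_two_lt zero_lt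
    rwa [zero_add] at this
  rw [hS.step 2 one_lt_two h2]
  refine ⟨fun _ => A, by rw [iUnion_const], fun _ => ⟨1, le_rfl, one_lt_two, ?_⟩⟩
  rw [hS.one]
  exact hA.isOpen_compl

/-- (A7c) class `≤ α` is contained in `S (α + 2)` -/
theorem CC_subset (hS : IsHier S) (α : Ordinal.{0}) (h : 1 ≤ α) (h' : α < (aleph 1).ord) :
    CC S α ⊆ S (α + 2) := by
  rintro A ⟨γ, h1, h2, h3, h4⟩
  rw [hS.step (α + 2) (one_lt_add_two α) (add_two_lt h')]
  rcases h4 with h4 | h4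
  · rcases eq_or_lt_of_le h1 with rfl | h1
    · refine ⟨fun _ => A, by rw [iUnion_const], fun _ => ⟨2, one_le_two, two_lt_add_two h, ?_⟩⟩
      apply closed_mem hS
      rw [hS.one] at h4
      exact (show IsOpen A from h4).isClosed_compl
    · rw [hS.step γ h1 h3] at h4
      obtain ⟨f, hf1, hf2⟩ := h4
      refine ⟨f, hf1, fun n => ?_⟩
      obtain ⟨β, hβ1, hβ2, hβ3⟩ := hf2 n
      exact ⟨β, hβ1, (hβ2.trans_le h2).trans (lt_add_two α), hβ3⟩
  · exact ⟨fun _ => A, by rw [iUnion_const], fun _ => ⟨γ, h1, lt_of_le_of_lt h2 (lt_add_two α), h4⟩⟩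

lemma S_union (hS : IsHier S) {δ : Ordinal.{0}} (h1 : 1 < δ) (h2 : δ < (aleph 1).ord)
    (A : ℕ → Set X) (hA : ∀ n, A n ∈ S δ) : (⋃ n, A n) ∈ S δ := by
  rw [hS.step δ h1 h2] at hA ⊢
  choose f hf1 hf2 using hA
  refine ⟨fun n => f (Nat.unpair n).1 (Nat.unpair n).2, ?_, fun n => hf2 _ _⟩
  ext x
  simp only [mem_iUnion]
  constructor
  · rintro ⟨n, hn⟩
    rw [hf1 n] at hn
    obtain ⟨k, hk⟩ := mem_iUnion.1 hn
    exact ⟨Nat.pair n k, by simpa using hk⟩
  · rintro ⟨n, hn⟩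
    refine ⟨(Nat.unpair n).1, ?_⟩
    rw [hf1]
    exact mem_iUnion.2 ⟨_, hn⟩

/-- (A7a) -/
theorem hier (hS : IsHier S) : Hier (CC S) := by
  refine ⟨?_, ?_, ?_⟩
  · rintro α β hle A ⟨γ, h1, h2, h3⟩
    exact ⟨γ, h1, h2.trans hle, h3⟩
  · intro A α hα hA
    have h1 : 1 ≤ α := by
      obtain ⟨γ, h1, h2, -⟩ := hA 0
      exact h1.trans h2
    have h2 := S_union hS (one_lt_add_two α) (add_two_lt hα) A
      (fun n => CC_subset hS α h1 hα (hA n))
    exact ⟨α + 2, (one_lt_add_two α).le, le_rfl, add_two_lt hα, Or.inl h2⟩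
  · rintro A α ⟨γ, h1, h2, h3, h4 | h4⟩
    · exact ⟨γ, h1, h2, h3, Or.inr (by rwa [compl_compl])⟩
    · exact ⟨γ, h1, h2, h3, Or.inl h4⟩

/-- (A7b) every Borel set lies in one of the classes -/
theorem borel_mem (hS : IsHier S) (A : Set X) (hA : @MeasurableSet X (borel X) A) :
    ∃ α < (aleph 1).ord, A ∈ CC S α := by
  have hH := hier hS
  induction A, hA using MeasurableSpace.generateFrom_induction with
  | hC t ht _ => exact ⟨1, one_lt, 1, le_rfl, le_rfl, one_lt, Or.inl (by rw [hS.one]; exact ht)⟩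
  | empty => exact ⟨1, one_lt, 1, le_rfl, le_rfl, one_lt, Or.inl (by rw [hS.one]; exact isOpen_empty)⟩
  | compl t _ ih =>
    obtain ⟨α, hα, h⟩ := ih
    exact ⟨α, hα, hH.compl _ _ h⟩
  | iUnion s _ ih =>
    choose α hα h using ih
    obtain ⟨δ, hδ, hle⟩ := sup_lt α hα
    exact ⟨δ + 2, add_two_lt hδ, hH.union _ _ hδ fun n => hH.mono _ _ (hle n) (h n)⟩

end Pool.L5helper52.BA
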