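import Pool.Agent.L5helper52.BA.Hi

set_option autoImplicit false
open Cardinal Set Topology

namespace Pool.L5helper52.BA

open Pool.L5helper54.BA

universe u

variable {X Z : Type u} [TopologicalSpace X] [TopologicalSpace Z] {S : Ordinal.{0} → Set (Set X)}

/-- the traces of the classes of a hierarchy -/
def tr (S : Ordinal.{0} → Set (Set X)) (e : Z → X) (γ : Ordinal.{0}) : Set (Set Z) :=
  {A' | ∃ A ∈ S γ, e ⁻¹' A = A'}

/-- the traces on a subspace of the Borel classes are the Borel classes of the subspace -/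
theorem isHier_tr (hS : IsHier S) (e : Z → X) (he : IsInducing e) : IsHier (tr S e) := by
  refine ⟨?_, ?_⟩
  · ext A'
    simp only [tr, mem_ofPred_eq, hS.one]
    exact he.isOpen_iff.symm
  · intro α h1 h2
    ext A'
    constructor
    · rintro ⟨A, hA, rfl⟩
      rw [hS.step α h1 h2] at hA
      obtain ⟨f, hf1, hf2⟩ := hA
      refine ⟨fun n => e ⁻¹' (f n), by rw [hf1, preimage_iUnion], fun n => ?_⟩
      obtain ⟨β, hβ1, hβ2, hβ3⟩ := hf2 n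
      exact ⟨β, hβ1, hβ2, (f n)ᶜ, hβ3, rfl⟩
    · rintro ⟨f', hf1, hf2⟩
      choose β hβ1 hβ2 A hA1 hA2 using hf2
      refine ⟨⋃ n, (A n)ᶜ, ?_, ?_⟩
      · rw [hS.step α h1 h2]
        exact ⟨fun n => (A n)ᶜ, rfl, fun n => ⟨β n, hβ1 n, hβ2 n, by rw [compl_compl]; exact hA1 n⟩⟩
      · rw [hf1, preimage_iUnion]
        refine iUnion_congr fun n => ?_
        rw [preimage_compl, hA2, compl_compl]

lemma tr_CC {A' : Set Z} {e : Z → X} {α : Ordinal.{0}} (h : A' ∈ CC (tr S e) α) :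
    ∃ A ∈ CC S α, e ⁻¹' A = A' := by
  obtain ⟨γ, h1, h2, h3, ⟨A, hA, rfl⟩ | ⟨A, hA, h4⟩⟩ := h
  · exact ⟨A, ⟨γ, h1, h2, h3, Or.inl hA⟩, rfl⟩
  · refine ⟨Aᶜ, ⟨γ, h1, h2, h3, Or.inr (by rwa [compl_compl])⟩, ?_⟩
    rw [preimage_compl, h4, compl_compl]

lemma CC_tr {A : Set X} {e : Z → X} {α : Ordinal.{0}} (h : A ∈ CC S α) :
    e ⁻¹' A ∈ CC (tr S e) α := by
  obtain ⟨γ, h1, h2, h3, hA | hA⟩ := h
  · exact ⟨γ, h1, h2, h3, Or.inl ⟨A, hA, rfl⟩⟩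
  · exact ⟨γ, h1, h2, h3, Or.inr ⟨Aᶜ, hA, rfl⟩⟩

/-- a set of class `≤ α` in an open subspace is of class `≤ max α 1 + 2` -/
lemma image_CC (hS : IsHier S) {O : Set X} (hO : IsOpen O) {A : Set X} {α : Ordinal.{0}}
    (hα : α < (aleph 1).ord) (h : (Subtype.val ⁻¹' A : Set O) ∈ CC (tr S (Subtype.val : O → X)) α) :
    A ∩ O ∈ CC S (max α 1 + 2) := by
  have hH := hier hS
  obtain ⟨B, hB, h1⟩ := tr_CC h
  have h2 : A ∩ O = (Bᶜ ∪ Oᶜ)ᶜ := by
    rw [compl_union, compl_compl, compl_compl]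
    ext x
    constructor
    · rintro ⟨hx, hO'⟩
      have h3 : (⟨x, hO'⟩ : O) ∈ (Subtype.val ⁻¹' A : Set O) := hx
      rw [← h1] at h3
      exact ⟨h3, hO'⟩
    · rintro ⟨hx, hO'⟩
      have h3 : (⟨x, hO'⟩ : O) ∈ (Subtype.val ⁻¹' B : Set O) := hx
      rw [h1] at h3
      exact ⟨h3, hO'⟩
  rw [h2]
  refine hH.compl _ _ (hH.union2 (max_lt hα one_lt) ?_ ?_)
  · exact hH.compl _ _ (hH.mono _ _ (le_max_left _ _) hB)
  · refine hH.compl _ _ (hH.mono _ _ (le_max_right _ _) ?_)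
    exact ⟨1, le_rfl, le_rfl, one_lt, Or.inl (by rw [hS.one]; exact hO)⟩

end Pool.L5helper52.BA
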