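import Pool.Agent.L5helper54.BA.Defs

set_option autoImplicit false
open Cardinal Set

namespace Pool.L5helper52.BA

open Pool.L5helper54.BA

universe u

/-- a well order all of whose proper initial segments are countable has at most continuum many
elements -/
lemma mk_le {Ω : Type} [LinearOrder Ω] [WellFoundedLT Ω] (hΩ : ∀ γ : Ω, (Iio γ).Countable) :
    #Ω ≤ continuum := by
  refine le_trans ?_ aleph_one_le_continuum
  by_contra hcon
  push Not at hcon
  have h1 : (ℵ₁ : Cardinal.{0}).ord < Ordinal.type ((· < ·) : Ω → Ω → Prop) :=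
    lt_of_lt_of_le (ord_lt_ord.2 hcon) (ord_le_type _)
  set γ : Ω := Ordinal.enum ((· < ·) : Ω → Ω → Prop) ⟨(ℵ₁ : Cardinal.{0}).ord, h1⟩ with hγ
  have h2 : Ordinal.typein ((· < ·) : Ω → Ω → Prop) γ = (ℵ₁ : Cardinal.{0}).ord :=
    Ordinal.typein_enum _ h1
  have h3 := Ordinal.card_typein (r := ((· < ·) : Ω → Ω → Prop)) γ
  rw [h2, card_ord] at h3
  have h4 : #(Iio γ) ≤ ℵ₀ := (hΩ γ).le_aleph0
  have h5 : #(Iio γ) = ℵ₁ := h3.symm
  rw [h5] at h4
  exact absurd h4 (not_le.2 aleph0_lt_aleph_one)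

/-- the parametrised classes -/
def cl {S : Type u} {Ω : Type} [LinearOrder Ω] (T : Ω → Set S) (p : Option Ω × (ℕ → Option Ω)) :
    Set S :=
  {s | ∀ α, (∀ γ, p.1 = some γ → α < γ) → (s ∈ T α ↔ ∃ n, p.2 n = some α)}

lemma mk_range_cl {S : Type u} {Ω : Type} [LinearOrder Ω] [WellFoundedLT Ω]
    (hΩ : ∀ γ : Ω, (Iio γ).Countable) (T : Ω → Set S) :
    #(range (cl T)) ≤ continuum := by
  have h1 := mk_range_le_lift (f := cl T)
  have h2 : #(Option Ω × (ℕ → Option Ω)) ≤ continuum := by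
    have h3 : #(Option Ω) ≤ continuum := by
      rw [mk_option]
      exact add_le_of_le aleph0_le_continuum (mk_le hΩ)
        (le_trans one_le_aleph0 aleph0_le_continuum)
    rw [mk_prod, lift_id, lift_id]
    refine le_trans (mul_le_mul' h3 ?_) (by rw [continuum_mul_self])
    rw [← power_def]
    calc (#(Option Ω)) ^ #ℕ ≤ continuum ^ #ℕ := power_le_power_right h3
      _ = continuum := by rw [mk_nat, continuum_power_aleph0]
  have h4 : lift.{u} #(Option Ω × (ℕ → Option Ω)) ≤ lift.{u} continuum.{0} := lift_le.2 h2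
  have h5 := h1.trans h4
  simpa using h5

/-- a countable set is enumerated -/
lemma exists_enum {Ω : Type} (P : Set Ω) (hP : P.Countable) :
    ∃ f : ℕ → Option Ω, ∀ α, α ∈ P ↔ ∃ n, f n = some α := by
  classical
  obtain rfl | hne := P.eq_empty_or_nonempty
  · exact ⟨fun _ => none, fun α => by simp⟩
  · obtain ⟨g, hg⟩ := hP.exists_eq_range hne
    refine ⟨fun n => some (g n), fun α => ?_⟩
    rw [hg]
    simp

/-- (5) tree lemma -/
theorem tree_lemma {S : Type u} {I : Set (Set S)} (hI : SatIdeal I)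
    (hc : ∀ 𝒟 : Set (Set S), #𝒟 ≤ continuum → (∀ D ∈ 𝒟, D ∈ I) → ⋃₀ 𝒟 ∈ I)
    {Ω : Type} [LinearOrder Ω] [WellFoundedLT Ω] (hΩ : ∀ γ : Ω, (Iio γ).Countable)
    (T : Ω → Set S) :
    ∃ N ∈ I, ∃ 𝒬 : Set (Set S), 𝒬.Countable ∧ N ∪ ⋃₀ 𝒬 = (Set.univ : Set S) ∧
      ∀ P ∈ 𝒬, ∀ α, P ⊆ T α ∨ Disjoint P (T α) := by
  classical
  have hun : ∀ A B : Set S, A ∈ I → B ∈ I → A ∪ B ∈ I := by
    intro A B hA hB
    have h := hc {A, B} (le_trans ((Set.toFinite _).countable.le_aleph0) aleph0_le_continuum)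
      (by rintro D (rfl | rfl) <;> assumption)
    simpa using h
  -- the null classes
  set 𝒟 : Set (Set S) := {D | D ∈ I ∧ D ∈ range (cl T)} with h𝒟
  have hN : ⋃₀ 𝒟 ∈ I := hc 𝒟
    (le_trans (mk_le_mk_of_subset (fun D hD => hD.2)) (mk_range_cl hΩ T)) (fun D hD => hD.1)
  -- the full classes
  set q : S → Set S := fun s => {s' | ∀ α, (s' ∈ T α ↔ s ∈ T α)} with hq
  have hqself : ∀ s, s ∈ q s := fun s α => Iff.rfl
  have hqeq : ∀ s s' x, x ∈ q s → x ∈ q s' → q s = q s' := by
    intro s s' x h1 h2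
    ext y
    constructor
    · intro h α
      rw [h α, ← h1 α, h2 α]
    · intro h α
      rw [h α, ← h2 α, h1 α]
  -- the splitting sets
  set sp : S → Ω → Set S := fun s γ =>
    {s' | (∀ α < γ, (s' ∈ T α ↔ s ∈ T α)) ∧ ¬ (s' ∈ T γ ↔ s ∈ T γ)} with hsp
  have hspd : ∀ s γ γ', γ < γ' → Disjoint (sp s γ) (sp s γ') := by
    intro s γ γ' h
    rw [Set.disjoint_left]
    rintro x ⟨-, h2⟩ ⟨h3, -⟩
    exact h2 (h3 γ h)
  have key : ∀ s, s ∉ ⋃₀ 𝒟 → q s ∉ I := by
    intro s hs hqs
    set E : Set Ω := {γ | sp s γ ∉ I} with hE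
    have hEc : E.Countable := by
      have hinj : InjOn (sp s) E := by
        intro γ hγ γ' hγ' h
        by_contra hne
        rcases lt_or_gt_of_ne hne with hlt | hlt
        · have hd := hspd s γ γ' hlt
          rw [h, disjoint_self] at hd
          apply hγ'
          rw [hd]
          exact hI.mono _ hN _ (empty_subset _)
        · have hd := hspd s γ' γ hlt
          rw [← h, disjoint_self] at hd
          apply hγ
          rw [hd]
          exact hI.mono _ hN _ (empty_subset _)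
      have himg : ((sp s) '' E).Countable := by
        refine hI.sat _ ?_ ?_
        · rintro _ ⟨γ, hγ, rfl⟩ _ ⟨γ', hγ', rfl⟩ hne
          have hne' : γ ≠ γ' := fun h => hne (by rw [h])
          rcases lt_or_gt_of_ne hne' with hlt | hlt
          · exact hspd s γ γ' hlt
          · exact (hspd s γ' γ hlt).symm
        · rintro _ ⟨γ, hγ, rfl⟩
          exact hγ
      exact (Set.countable_of_injective_of_countable_image hinj himg)
    -- the union of the null splitting sets
    have hU : ⋃₀ {D | D ∈ I ∧ D ∈ range (sp s)} ∈ I := by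
      refine hc _ (le_trans (mk_le_mk_of_subset (t := range (sp s)) (fun D hD => hD.2)) ?_)
        (fun D hD => hD.1)
      have h1 := mk_range_le_lift (f := sp s)
      have h5 := h1.trans (lift_le.2 (mk_le hΩ))
      simpa using h5
    -- a countable lower set that contains `E`
    obtain ⟨p, hp1, hp2, hp3⟩ : ∃ p : Option Ω × (ℕ → Option Ω), s ∈ cl T p ∧
        (∀ s' ∈ cl T p, ∀ α, (∀ γ, p.1 = some γ → α < γ) → (s' ∈ T α ↔ s ∈ T α)) ∧
        ∀ α ∈ E, ∀ γ, p.1 = some γ → α < γ := by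
      by_cases hb : ∃ γ, ∀ α ∈ E, α < γ
      · obtain ⟨γ, hγ⟩ := hb
        obtain ⟨f, hf⟩ := exists_enum {α | α < γ ∧ s ∈ T α} ((hΩ γ).mono (fun α h => h.1))
        have hs1 : s ∈ cl T (some γ, f) := by
          intro α hα
          have hα' : α < γ := hα γ rfl
          rw [← hf α]
          exact ⟨fun h => ⟨hα', h⟩, fun h => h.2⟩
        refine ⟨(some γ, f), hs1, ?_, ?_⟩
        · intro s' hs' α hα
          exact (hs' α hα).trans (hs1 α hα).symm
        · intro α hα γ' hγ'
          simp only [Option.some.injEq] at hγ'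
          rw [← hγ']
          exact hγ α hα
      · push Not at hb
        have hcount : (univ : Set Ω).Countable := by
          have : (univ : Set Ω) ⊆ ⋃ α ∈ E, Iic α := by
            intro γ _
            obtain ⟨α, hα, hle⟩ := hb γ
            exact mem_biUnion hα hle
          refine Set.Countable.mono this (hEc.biUnion (fun α _ => ?_))
          rw [← Iio_insert]
          exact (hΩ α).insert α
        obtain ⟨f, hf⟩ := exists_enum {α | s ∈ T α} (hcount.mono (subset_univ _))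
        have hs1 : s ∈ cl T (none, f) := by
          intro α hα
          rw [← hf α]
          rfl
        refine ⟨(none, f), hs1, ?_, ?_⟩
        · intro s' hs' α hα
          exact (hs' α hα).trans (hs1 α hα).symm
        · intro α hα γ' hγ'
          simp at hγ'
    -- the class of `s` for this lower set is not null
    have hpos : cl T p ∉ I := by
      intro h
      exact hs ⟨cl T p, ⟨h, p, rfl⟩, hp1⟩
    apply hpos
    refine hI.mono _ (hun _ _ hqs hU) _ ?_
    intro s' hs'
    by_cases hq' : s' ∈ q s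
    · exact Or.inl hq'
    · right
      have hex : ∃ α, ¬ (s' ∈ T α ↔ s ∈ T α) := by
        by_contra hcon
        push Not at hcon
        exact hq' hcon
      set γ := wellFounded_lt.min {α | ¬ (s' ∈ T α ↔ s ∈ T α)} hex with hγ
      have hγ1 : ¬ (s' ∈ T γ ↔ s ∈ T γ) := wellFounded_lt.min_mem {α | ¬ (s' ∈ T α ↔ s ∈ T α)} hex
      have hγ2 : ∀ α < γ, (s' ∈ T α ↔ s ∈ T α) := by
        intro α hα
        by_contra hcon
        exact wellFounded_lt.not_lt_min {α | ¬ (s' ∈ T α ↔ s ∈ T α)} hcon hα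
      have hγE : γ ∉ E := by
        intro h
        exact hγ1 (hp2 s' hs' γ (hp3 γ h))
      refine ⟨sp s γ, ⟨?_, γ, rfl⟩, hγ2, hγ1⟩
      by_contra hcon
      exact hγE hcon
  refine ⟨⋃₀ 𝒟, hN, {P | ∃ s, s ∉ ⋃₀ 𝒟 ∧ P = q s}, ?_, ?_, ?_⟩
  · refine hI.sat _ ?_ ?_
    · rintro _ ⟨s, hs, rfl⟩ _ ⟨s', hs', rfl⟩ hne
      change Disjoint (q s) (q s')
      rw [Set.disjoint_left]
      intro x h1 h2
      exact hne (hqeq s s' x h1 h2)
    · rintro _ ⟨s, hs, rfl⟩
      exact key s hs
  · rw [eq_univ_iff_forall]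
    intro s
    by_cases hs : s ∈ ⋃₀ 𝒟
    · exact Or.inl hs
    · exact Or.inr ⟨q s, ⟨s, hs, rfl⟩, hqself s⟩
  · rintro _ ⟨s, hs, rfl⟩ α
    by_cases h : s ∈ T α
    · left
      intro x hx
      exact (hx α).2 h
    · right
      rw [Set.disjoint_left]
      intro x hx hxT
      exact h ((hx α).1 hxT)

end Pool.L5helper52.BA
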